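import Pool.Agent.Helper17.PP.GoalsC1

/-!
# Project PP, packet C_ORT: the expansion of `cnt`
-/

namespace Pool.Agent.Helper23.PP

open Finset Pool.Agent.Helper17.PP

section

variable {p : ℕ} {B B₀ k U Λ C : Type} [Field k] [Fintype k] [Algebra (ZMod p) k]
    [AddCommGroup U] [Module k U] [Fintype U] [AddCommGroup Λ] [Module k Λ] [Fintype Λ]
    [AddCommGroup C] (S : Sys p B B₀ k U Λ C)

theorem rs_subset {b : Finset B} {q : B} : S.rs b q ⊆ b := by
  classical
  intro x hx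
  unfold Sys.rs at hx
  exact (mem_erase.1 (mem_filter.1 hx).1).2

theorem rg_subset {E : ℕ} {b : Finset B} {q : B} : S.rg E b q ⊆ b := by
  classical
  intro x hx
  unfold Sys.rg at hx
  exact (mem_erase.1 (mem_filter.1 hx).1).2

theorem q_notMem_rs {b : Finset B} {q : B} : q ∉ S.rs b q := by
  classical
  intro hx
  unfold Sys.rs at hx
  exact (mem_erase.1 (mem_filter.1 hx).1).1 rfl

/-- Orthogonality over the label functions. -/
theorem sum_prod (hlab : C_LAB) (ψ : AddChar k ℂ) (hψ : ψ ≠ 1) (P D : Finset B) (hD : D ⊆ P)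
    (R : B → k) [Decidable (∀ q ∈ D, R q = 0)] :
    ∑ y ∈ lab k P, ∏ q ∈ D, ψ (y q * R q) =
      if ∀ q ∈ D, R q = 0 then ((lab k P).card : ℂ) else 0 := by
  classical
  split_ifs with h
  · rw [Finset.card_eq_sum_ones, Nat.cast_sum]
    refine sum_congr rfl fun y _ ↦ ?_
    rw [Nat.cast_one]
    refine prod_eq_one fun q hq ↦ ?_
    rw [h q hq, mul_zero, AddChar.map_zero_eq_one]
  · push Not at h
    obtain ⟨q₁, hq₁, hR⟩ := h
    obtain ⟨w, hw⟩ : ∃ w, ψ w ≠ 1 := by
      by_contra hcon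
      push Not at hcon
      exact hψ (by ext w; rw [hcon w]; rfl)
    set z : k := w * (R q₁)⁻¹ with hz
    have hzR : z * R q₁ = w := by rw [hz, mul_assoc, inv_mul_cancel₀ hR, mul_one]
    set e : B → k := fun q ↦ if q = q₁ then z else 0 with he
    have hemem : e ∈ lab k P := by
      rw [mem_lab]
      intro q hq
      rw [he]
      have : q ≠ q₁ := by
        rintro rfl
        exact hq (hD hq₁)
      simp [this]
    have h3 := (hlab B k P).2.2.1
    refine h3 (fun y ↦ ∏ q ∈ D, ψ (y q * R q)) (ψ w) hw e hemem ?_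
    intro y _
    have : ∀ q ∈ D, ψ ((y + e) q * R q) = (if q = q₁ then ψ w else 1) * ψ (y q * R q) := by
      intro q hq
      rw [Pi.add_apply, add_mul, AddChar.map_add_eq_mul, mul_comm]
      congr 1
      by_cases hqq : q = q₁
      · subst hqq
        simp [he, hzR]
      · simp [he, hqq]
    show ∏ q ∈ D, ψ ((y + e) q * R q) = _
    rw [prod_congr rfl this, prod_mul_distrib, prod_ite_eq' D q₁, if_pos hq₁]

/-- The sum over `D` collects each label function once. -/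
theorem sum_D (ψ : AddChar k ℂ) (P G : Finset B) (R : B → k) [DecidableEq B]
    (dec : ∀ (D : Finset B) (y : B → k), Decidable (∀ q' ∈ G, y q' ≠ 0 ↔ q' ∈ D)) :
    ∑ D ∈ G.powerset, ∑ y ∈ lab k P with (∀ q' ∈ G, y q' ≠ 0 ↔ q' ∈ D),
        ∏ q' ∈ D, ψ (y q' * R q') =
      ∑ y ∈ lab k P, ∏ q' ∈ G, ψ (y q' * R q') := by
  classical
  simp_rw [sum_filter]
  rw [sum_comm]
  refine sum_congr rfl fun y _ ↦ ?_
  rw [sum_eq_single (G.filter fun q' ↦ y q' ≠ 0)]
  · rw [if_pos]
    · rw [prod_filter]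
      refine prod_congr rfl fun q' _ ↦ ?_
      split_ifs with h
      · rfl
      · push Not at h
        rw [h, zero_mul, AddChar.map_zero_eq_one]
    · intro q' hq'
      rw [mem_filter]
      exact ⟨fun h ↦ ⟨hq', h⟩, fun h ↦ h.2⟩
  · intro D hD hne
    rw [if_neg]
    intro hcon
    apply hne
    ext q'
    rw [mem_filter]
    constructor
    · intro hq'
      have h1 := (mem_powerset.1 hD) hq'
      exact ⟨h1, (hcon q' h1).2 hq'⟩
    · rintro ⟨h1, h2⟩
      exact (hcon q' h1).1 h2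
  · intro h
    exact absurd (mem_powerset.2 (filter_subset _ _)) h

theorem trc_q {b : Finset B} {q : B} {t : k} {c : B → k} : S.trc b q t c q = t := by
  simp [Sys.trc]

theorem trc_rs {b : Finset B} {q : B} {t : k} {c : B → k} {q' : B} (h : q' ∈ S.rs b q) :
    S.trc b q t c q' = c q' := by
  have : q' ≠ q := by
    rintro rfl
    exact q_notMem_rs S h
  simp [Sys.trc, this, h]

theorem trc_out {b : Finset B} {q : B} {t : k} {c : B → k} {q' : B} (hq : q' ≠ q)
    (h : q' ∉ S.rs b q) : S.trc b q t c q' = 0 := by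
  simp [Sys.trc, hq, h]

theorem trc_congr {b : Finset B} {q : B} {t : k} {c c' : B → k}
    (h : ∀ q' ∈ S.rs b q, c q' = c' q') : S.trc b q t c = S.trc b q t c' := by
  funext q'
  by_cases h1 : q' = q
  · subst h1
    rw [trc_q, trc_q]
  · by_cases h2 : q' ∈ S.rs b q
    · rw [trc_rs S h2, trc_rs S h2, h q' h2]
    · rw [trc_out S h1 h2, trc_out S h1 h2]

/-- The conditions on the label function `trc b q t c`. -/
def Good (E : ℕ) (b : Finset B) (q : B) (x : U) (t : k) (c : B → k) : Prop :=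
  S.lam₀ x + ∑ q' ∈ b, S.lam q' (S.trc b q t c q') = 0 ∧
    ∀ q' ∈ S.rg E b q, S.R b x (S.trc b q t c) q' = 0

theorem sum_swap {α β γ : Type*} (s : Finset α) (t : Finset β) (u : Finset γ)
    (F : α → β → γ → ℂ) :
    ∑ a ∈ s, ∑ b ∈ t, ∑ c ∈ u, F a b c = ∑ c ∈ u, ∑ a ∈ s, ∑ b ∈ t, F a b c := by
  rw [sum_congr rfl fun a _ ↦ sum_comm, sum_comm]

open Classical in
theorem step (hlab : C_LAB) (ψ : AddChar k ℂ) (hψ : ψ ≠ 1) (E : ℕ) (P b : Finset B) (q : B)
    (hbP : b ⊆ P) (x : U) (t : k) (c : B → k) :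
    ∑ D ∈ (S.rg E b q).powerset, ∑ χ : AddChar Λ ℂ,
      ∑ y ∈ lab k P with (∀ q' ∈ S.rg E b q, y q' ≠ 0 ↔ q' ∈ D),
        χ (S.lam₀ x + ∑ q' ∈ b, S.lam q' (S.trc b q t c q')) *
          ∏ q' ∈ D, ψ (y q' * S.R b x (S.trc b q t c) q') =
      if Good S E b q x t c then ((Fintype.card Λ : ℂ) * (lab k P).card) else 0 := by
  have h1 : ∀ D ∈ (S.rg E b q).powerset, ∑ χ : AddChar Λ ℂ,
      ∑ y ∈ lab k P with (∀ q' ∈ S.rg E b q, y q' ≠ 0 ↔ q' ∈ D),
        χ (S.lam₀ x + ∑ q' ∈ b, S.lam q' (S.trc b q t c q')) *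
          ∏ q' ∈ D, ψ (y q' * S.R b x (S.trc b q t c) q') =
      (if S.lam₀ x + ∑ q' ∈ b, S.lam q' (S.trc b q t c q') = 0 then (Fintype.card Λ : ℂ) else 0) *
        ∑ y ∈ lab k P with (∀ q' ∈ S.rg E b q, y q' ≠ 0 ↔ q' ∈ D),
          ∏ q' ∈ D, ψ (y q' * S.R b x (S.trc b q t c) q') := by
    intro D _
    rw [← AddChar.sum_apply_eq_ite, sum_mul]
    refine sum_congr rfl fun χ _ ↦ ?_
    rw [mul_sum]
  rw [sum_congr rfl h1, ← mul_sum, sum_D ψ P (S.rg E b q) (fun q' ↦ S.R b x (S.trc b q t c) q'),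
    sum_prod hlab ψ hψ P (S.rg E b q) ((rg_subset S).trans hbP)]
  unfold Good
  by_cases ha : S.lam₀ x + ∑ q' ∈ b, S.lam q' (S.trc b q t c q') = 0
  · by_cases hb : ∀ q' ∈ S.rg E b q, S.R b x (S.trc b q t c) q' = 0
    · rw [if_pos ha, if_pos hb, if_pos ⟨ha, hb⟩]
    · have hG : ¬ (S.lam₀ x + ∑ q' ∈ b, S.lam q' (S.trc b q t c q') = 0 ∧
          ∀ q' ∈ S.rg E b q, S.R b x (S.trc b q t c) q' = 0) := fun h ↦ hb h.2
      rw [if_neg hb, if_neg hG, mul_zero]
  · have hG : ¬ (S.lam₀ x + ∑ q' ∈ b, S.lam q' (S.trc b q t c q') = 0 ∧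
        ∀ q' ∈ S.rg E b q, S.R b x (S.trc b q t c) q' = 0) := fun h ↦ ha h.1
    rw [if_neg ha, if_neg hG, zero_mul]

open Classical in
theorem cnt_eq (E : ℕ) (b : Finset B) (q : B) (hq : q ∈ b) :
    (S.cnt E b q : ℂ) = ∑ x : U, ∑ t : k with t ≠ 0, ∑ g ∈ lab k (S.rs b q),
      if Good S E b q x t g then (1 : ℂ) else 0 := by
  unfold Sys.cnt
  rw [card_filter, Nat.cast_sum, sum_product]
  refine sum_congr rfl fun x _ ↦ ?_
  simp only [Nat.cast_ite, Nat.cast_one, Nat.cast_zero]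
  rw [← sum_product', ← sum_filter, ← sum_filter]
  refine sum_nbij' (i := fun c ↦ (c q, fun q' ↦ if q' ∈ S.rs b q then c q' else 0))
    (j := fun z ↦ S.trc b q z.1 z.2) ?_ ?_ ?_ ?_ ?_
  · intro c hc
    rw [mem_filter] at hc
    obtain ⟨_, hc⟩ := hc
    have hext : S.trc b q (c q) (fun q' ↦ if q' ∈ S.rs b q then c q' else 0) = c := by
      funext q'
      by_cases h1 : q' = q
      · subst h1
        rw [trc_q]
      · by_cases h2 : q' ∈ S.rs b q
        · rw [trc_rs S h2]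
          simp [h2]
        · rw [trc_out S h1 h2]
          by_contra hne
          rcases hc.supp q' (Ne.symm hne) with h | h
          · exact h1 h
          · exact h2 h
    rw [mem_filter, mem_product, mem_filter]
    refine ⟨⟨⟨mem_univ _, hc.ne⟩, ?_⟩, ?_⟩
    · rw [mem_lab]
      intro q' hq'
      simp [hq']
    · refine ⟨?_, ?_⟩
      · show S.lam₀ x + ∑ q' ∈ b, S.lam q' (S.trc b q (c q) _ q') = 0
        rw [hext]
        exact hc.lam
      · show ∀ q' ∈ S.rg E b q, S.R b x (S.trc b q (c q) _) q' = 0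
        rw [hext]
        exact hc.loc
  · rintro ⟨t, g⟩ hz
    rw [mem_filter, mem_product, mem_filter] at hz
    obtain ⟨⟨⟨_, ht⟩, hg⟩, hgood⟩ := hz
    rw [mem_filter]
    refine ⟨?_, ?_, ?_, ?_, ?_⟩
    · rw [mem_lab]
      intro q' hq'
      apply trc_out
      · rintro rfl
        exact hq' hq
      · exact fun h ↦ hq' (rs_subset S h)
    · intro q' hne
      by_contra hcon
      push Not at hcon
      exact hne (trc_out S hcon.1 hcon.2)
    · show S.trc b q t g q ≠ 0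
      rw [trc_q]
      exact ht
    · exact hgood.1
    · exact hgood.2
  · intro c hc
    rw [mem_filter] at hc
    obtain ⟨_, hc⟩ := hc
    funext q'
    show S.trc b q (c q) (fun q' ↦ if q' ∈ S.rs b q then c q' else 0) q' = c q'
    by_cases h1 : q' = q
    · subst h1
      rw [trc_q]
    · by_cases h2 : q' ∈ S.rs b q
      · rw [trc_rs S h2]
        simp [h2]
      · rw [trc_out S h1 h2]
        by_contra hne
        rcases hc.supp q' (Ne.symm hne) with h | h
        · exact h1 h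
        · exact h2 h
  · rintro ⟨t, g⟩ hz
    rw [mem_filter, mem_product, mem_filter] at hz
    obtain ⟨⟨⟨_, ht⟩, hg⟩, hgood⟩ := hz
    rw [mem_lab] at hg
    refine Prod.ext (trc_q S) ?_
    funext q'
    show (if q' ∈ S.rs b q then S.trc b q t g q' else 0) = g q'
    split_ifs with h
    · rw [trc_rs S h]
    · exact (hg q' h).symm
  · intro c _
    rfl

end

theorem c_ort (hlab : C_LAB) : Pool.Agent.Helper17.PP.C_ORT := by
  intro p _ B B₀ k U Λ C _ _ _ _ _ _ _ _ _ _ S ψ hψ E P b q hbP hq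
  classical
  have hQ : (Fintype.card k : ℂ) ≠ 0 := Nat.cast_ne_zero.2 Fintype.card_ne_zero
  have hcard : ((lab k P).card : ℂ) = (Fintype.card k : ℂ) ^ P.card := by
    rw [(hlab B k P).1, Nat.cast_pow]
  have hL : (Fintype.card Λ : ℂ) ≠ 0 := Nat.cast_ne_zero.2 Fintype.card_ne_zero
  have hlab0 : ((lab k P).card : ℂ) ≠ 0 := by
    rw [hcard]
    exact pow_ne_zero _ hQ
  unfold Sys.part
  rw [sum_congr rfl fun D _ ↦ (mul_sum _ _ _).symm, ← mul_sum]
  rw [sum_swap]
  rw [sum_congr rfl fun x _ ↦ sum_swap _ _ _ _]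
  rw [sum_congr rfl fun x _ ↦ sum_congr rfl fun t _ ↦ sum_swap _ _ _ _]
  have key : ∀ x : U, ∀ t : k, ∑ c ∈ lab k P, ∑ D ∈ (S.rg E b q).powerset,
      ∑ χ : AddChar Λ ℂ, ∑ y ∈ lab k P with (∀ q' ∈ S.rg E b q, y q' ≠ 0 ↔ q' ∈ D),
        χ (S.lam₀ x + ∑ q' ∈ b, S.lam q' (S.trc b q t c q')) *
          ∏ q' ∈ D, ψ (y q' * S.R b x (S.trc b q t c) q') =
      ((Fintype.card Λ : ℂ) * (lab k P).card) *
        ((Fintype.card k : ℂ) ^ P.card / (Fintype.card k : ℂ) ^ (S.rs b q).card) *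
          ∑ g ∈ lab k (S.rs b q), if Good S E b q x t g then (1 : ℂ) else 0 := by
    intro x t
    rw [sum_congr rfl fun c _ ↦ step S hlab ψ hψ E P b q hbP x t c]
    have h5 := (hlab B k P).2.2.2.2 (fun c ↦ if Good S E b q x t c then (1 : ℂ) else 0)
      (fun c ↦ if Good S E b q x t c then (1 : ℂ) else 0) (S.rs b q)
      ((rs_subset S).trans hbP) (by
        intro f _ g _ hfg
        have : S.trc b q t f = S.trc b q t g := trc_congr S hfg
        have h : Good S E b q x t f ↔ Good S E b q x t g := by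
          unfold Good
          rw [this]
        by_cases hh : Good S E b q x t f
        · rw [if_pos hh, if_pos (h.1 hh)]
        · rw [if_neg hh, if_neg fun h' ↦ hh (h.2 h')])
    have h6 : ∑ c ∈ lab k P, (if Good S E b q x t c then
        ((Fintype.card Λ : ℂ) * (lab k P).card) else 0) =
        ((Fintype.card Λ : ℂ) * (lab k P).card) *
          ∑ c ∈ lab k P, if Good S E b q x t c then (1 : ℂ) else 0 := by
      rw [mul_sum]
      refine sum_congr rfl fun c _ ↦ ?_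
      split_ifs <;> simp
    rw [h6]
    have hne : (Fintype.card k : ℂ) ^ (S.rs b q).card ≠ 0 := pow_ne_zero _ hQ
    have h7 : ∑ c ∈ lab k P, (if Good S E b q x t c then (1 : ℂ) else 0) =
        (Fintype.card k : ℂ) ^ P.card / (Fintype.card k : ℂ) ^ (S.rs b q).card *
          ∑ g ∈ lab k (S.rs b q), if Good S E b q x t g then (1 : ℂ) else 0 := by
      rw [div_mul_eq_mul_div, eq_div_iff hne, mul_comm, h5]
    rw [h7, ← mul_assoc]
  rw [cnt_eq S E b q hq, sum_congr rfl fun x _ ↦ sum_congr rfl fun t _ ↦ key x t]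
  rw [sum_congr rfl fun x _ ↦ (mul_sum _ _ _).symm, ← mul_sum]
  rw [← mul_assoc, hcard]
  have hne : (Fintype.card k : ℂ) ^ (S.rs b q).card ≠ 0 := pow_ne_zero _ hQ
  have hneP : (Fintype.card k : ℂ) ^ P.card ≠ 0 := pow_ne_zero _ hQ
  have : (Fintype.card k : ℂ) ^ (S.rs b q).card /
      (Fintype.card Λ * ((Fintype.card k : ℂ) ^ P.card) ^ 2) *
      ((Fintype.card Λ : ℂ) * (Fintype.card k : ℂ) ^ P.card *
        ((Fintype.card k : ℂ) ^ P.card / (Fintype.card k : ℂ) ^ (S.rs b q).card)) = 1 := by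
    field_simp
  rw [this, one_mul]

end Pool.Agent.Helper23.PP
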